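import Pool.Agent.Lib_MP_b9fedf_ag.Fermat

/-!
# The Green-Griffiths-Lang conjecture for varieties cut out by few-term equations of Fermat type

`X ⊆ ℙⁿ` is cut out by homogeneous polynomials, each of which has at most `N` terms whose exponent
vectors are congruent modulo some `d > N (N - 2)` (both `N` and `d` may depend on the polynomial).
Examples: all monomials and binomials (`d = 1`), and, for an arbitrary projective variety `Y`
defined by polynomials with at most `N` terms, the Fermat cover `{[x] : [x_i^d] ∈ Y}` with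
`d > N (N - 2)`.

For such `X` the following are equivalent: `X` receives no non-constant map from a complex torus;
`X` is Brody hyperbolic; `X` contains no non-constant monomial curve `t ↦ (a_i t^{w_i})`.

Proof. Cartan's second main theorem with truncated counting functions (proved here from scratch,
including the lemma on the logarithmic derivative for meromorphic functions of any growth) splits
the terms of each equation along an entire curve into blocks of proportional functions with
vanishing sums. A rational linear functional on the space of functions, applied to the logarithmic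
derivatives of the coordinates, produces a non-trivial one-parameter group whose orbits through the
points of the entire curve are contained in `X`. Theta functions turn it into a map from an
elliptic curve.
-/

set_option autoImplicit false

open Pool.Agent.GGL

namespace Pool.Agent.Results.MP_b9fedf_ag.FermatCovers

/-- The condition on the equations. -/
def FewTerms {σ : Type} (p : MvPolynomial σ ℂ) : Prop :=
  (∃ D : ℕ, p.IsHomogeneous D) ∧
  ∃ d : ℕ, p.support.card * (p.support.card - 2) < d ∧
    ∀ a ∈ p.support, ∀ b ∈ p.support, ∀ i, (d : ℤ) ∣ (a i : ℤ) - b i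

/-- A non-constant monomial curve in `X` yields a non-constant map from an elliptic curve. -/
lemma torus_of_monomial {n : ℕ} (S : Set (MvPolynomial (Fin (n + 1)) ℂ))
    (hS : ∀ p ∈ S, ∃ D : ℕ, p.IsHomogeneous D) (a : Fin (n + 1) → ℂ) (w : Fin (n + 1) → ℕ)
    (h : ∀ t : ℂ, t ≠ 0 → ∀ p ∈ S, MvPolynomial.eval (fun i => a i * t ^ w i) p = 0)
    {i j : Fin (n + 1)} (hi : a i ≠ 0) (hj : a j ≠ 0) (hij : w i ≠ w j)
    (htor : ∀ (g : ℕ) (L : AddSubgroup (Fin g → ℂ)),
          DiscreteTopology L →
          Submodule.span ℝ (L : Set (Fin g → ℂ)) = ⊤ →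
          ∀ F : (Fin g → ℂ) → (Fin (n + 1) → ℂ),
            Differentiable ℂ F →
            (∀ z, F z ≠ 0) →
            (∀ z, ∀ p ∈ S, MvPolynomial.eval (F z) p = 0) →
            (∀ z, ∀ l ∈ L, ∃ c : ℂ, F (z + l) = c • F z) →
            ∀ z w, ∃ c : ℂ, F w = c • F z) : False := by
  classical
  set I : Finset (Fin (n + 1)) := Finset.univ.filter (fun i => a i ≠ 0) with hIdef
  have hI : ∀ i, i ∈ I ↔ a i ≠ 0 := by
    intro i; rw [hIdef, Finset.mem_filter]; simp
  have hIne : I.Nonempty := ⟨i, (hI i).mpr hi⟩
  obtain ⟨k0, hk0I, hk0⟩ := Finset.exists_min_image I w hIne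
  obtain ⟨k1, hk1I, hk1⟩ := Finset.exists_max_image I w hIne
  set v : Fin (n + 1) → ℕ := fun k => if k ∈ I then w k - w k0 else 0 with hv
  set N : ℕ := w k1 - w k0 with hN
  have hvI : ∀ k ∈ I, v k + w k0 = w k := by
    intro k hk
    have := hk0 k hk
    simp only [hv, if_pos hk]
    omega
  have hN0 : 0 < N := by
    have h1 := hk0 i ((hI i).mpr hi)
    have h2 := hk0 j ((hI j).mpr hj)
    have h3 := hk1 i ((hI i).mpr hi)
    have h4 := hk1 j ((hI j).mpr hj)
    omega
  have hvN : ∀ k, v k ≤ N := by
    intro k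
    by_cases hk : k ∈ I
    · have h1 := hvI k hk
      have h2 := hk1 k hk
      omega
    · simp only [hv, if_neg hk]; exact Nat.zero_le _
  have hvk0 : v k0 = 0 := by have := hvI k0 hk0I; omega
  have hvk1 : v k1 = N := by have := hvI k1 hk1I; omega
  -- the two-variable identity
  have hst : ∀ p ∈ S, ∀ s t : ℂ,
      MvPolynomial.eval (fun i => a i * s ^ v i * t ^ (N - v i)) p = 0 := by
    intro p hp
    obtain ⟨D, hD⟩ := hS p hp
    have h1 : ∀ s t : ℂ, s ≠ 0 → t ≠ 0 →
        MvPolynomial.eval (fun i => a i * s ^ v i * t ^ (N - v i)) p = 0 := by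
      intro s t hs ht
      have h2 := h (s / t) (div_ne_zero hs ht) p hp
      set c : ℂ := t ^ N * (s / t)⁻¹ ^ w k0 with hc
      have h3 : (fun i => a i * s ^ v i * t ^ (N - v i)) =
          c • (fun i => a i * (s / t) ^ w i) := by
        ext k
        rw [Pi.smul_apply, smul_eq_mul]
        by_cases hk : k ∈ I
        · have h4 := hvI k hk
          have h5 : t ^ N = t ^ v k * t ^ (N - v k) := by
            rw [← pow_add]; congr 1; have := hvN k; omega
          rw [hc, h5, ← h4, pow_add]
          have h6 : (s / t)⁻¹ ^ w k0 * (s / t) ^ w k0 = 1 := by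
            rw [← mul_pow, inv_mul_cancel₀ (div_ne_zero hs ht), one_pow]
          have h7 : (s / t) ^ v k * t ^ v k = s ^ v k := by
            rw [← mul_pow, div_mul_cancel₀ _ ht]
          calc a k * s ^ v k * t ^ (N - v k) = a k * ((s / t) ^ v k * t ^ v k) * t ^ (N - v k) := by
                rw [h7]
            _ = a k * ((s / t) ^ v k * t ^ v k) * t ^ (N - v k) *
                ((s / t)⁻¹ ^ w k0 * (s / t) ^ w k0) := by rw [h6, mul_one]
            _ = _ := by ring
        · have h8 : a k = 0 := by
            by_contra h9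
            exact hk ((hI k).mpr h9)
          rw [h8]; ring
      rw [h3, eval_smul_hom hD, h2, mul_zero]
    -- density
    intro s t
    have hc : Continuous (fun x : ℂ × ℂ =>
        MvPolynomial.eval (fun i => a i * x.1 ^ v i * x.2 ^ (N - v i)) p) := by
      apply (MvPolynomial.continuous_eval p).comp
      fun_prop
    have hd : Dense ({x : ℂ | x ≠ 0} ×ˢ {x : ℂ | x ≠ 0}) :=
      (dense_compl_singleton (0 : ℂ)).prod (dense_compl_singleton (0 : ℂ))
    have h4 := hc.ext_on hd continuous_const (fun x hx => h1 x.1 x.2 hx.1 hx.2)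
    exact congrFun h4 (s, t)
  obtain ⟨L, s, t, hLd, hLs, hsd, htd, hst0, ⟨z1, hz1⟩, ⟨z2, hz2⟩, hper⟩ := exists_theta
  have hF := htor 1 L hLd hLs (fun z i => a i * s z ^ v i * t z ^ (N - v i)) ?_ ?_ ?_ ?_ z2 z1
  · obtain ⟨c, hc⟩ := hF
    have h1 := congrFun hc k1
    simp only [Pi.smul_apply, smul_eq_mul] at h1
    rw [hvk1, hz1, Nat.sub_self, pow_zero, pow_zero, zero_pow hN0.ne', mul_zero, zero_mul,
      mul_one] at h1
    have hc0 : c = 0 := by
      have h2 : a k1 * s z2 ^ N ≠ 0 := mul_ne_zero ((hI k1).mp hk1I) (pow_ne_zero _ hz2)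
      rcases mul_eq_zero.mp h1.symm with h3 | h3
      · exact h3
      · exact absurd h3 h2
    have h2 := congrFun hc k0
    simp only [Pi.smul_apply, smul_eq_mul] at h2
    rw [hvk0, hc0, zero_mul, pow_zero, mul_one, Nat.sub_zero] at h2
    have h3 : t z1 ≠ 0 := (hst0 z1).resolve_left (by simp [hz1])
    exact mul_ne_zero ((hI k0).mp hk0I) (pow_ne_zero _ h3) h2
  · rw [differentiable_pi]
    intro k
    exact ((hsd.pow _).const_mul _).mul (htd.pow _)
  · intro z h0
    rcases hst0 z with h1 | h1
    · have h2 := congrFun h0 k1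
      simp only [Pi.zero_apply] at h2
      rw [hvk1, Nat.sub_self, pow_zero, mul_one] at h2
      exact mul_ne_zero ((hI k1).mp hk1I) (pow_ne_zero _ h1) h2
    · have h2 := congrFun h0 k0
      simp only [Pi.zero_apply] at h2
      rw [hvk0, Nat.sub_zero, pow_zero, mul_one] at h2
      exact mul_ne_zero ((hI k0).mp hk0I) (pow_ne_zero _ h1) h2
  · intro z p hp
    exact hst p hp (s z) (t z)
  · intro z l hl
    obtain ⟨c, hc1, hc2⟩ := hper l hl z
    refine ⟨c ^ N, ?_⟩
    ext k
    rw [Pi.smul_apply, smul_eq_mul, hc1, hc2, mul_pow, mul_pow]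
    have h5 : c ^ N = c ^ v k * c ^ (N - v k) := by
      rw [← pow_add]; congr 1; have := hvN k; omega
    rw [h5]; ring

/-- **Theorem.** For `X = V(S) ⊆ ℙⁿ` with few-term equations of Fermat type the following are
equivalent: (1) every holomorphic map from a complex torus to `X` is constant, (2) every
holomorphic map from `ℂ` to `X` is constant, (3) `X` contains no non-constant monomial curve. -/
theorem result (n : ℕ) (S : Set (MvPolynomial (Fin (n + 1)) ℂ)) (hS : ∀ p ∈ S, FewTerms p) :
    List.TFAE [
      (∀ (g : ℕ) (L : AddSubgroup (Fin g → ℂ)),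
          DiscreteTopology L →
          Submodule.span ℝ (L : Set (Fin g → ℂ)) = ⊤ →
          ∀ F : (Fin g → ℂ) → (Fin (n + 1) → ℂ),
            Differentiable ℂ F →
            (∀ z, F z ≠ 0) →
            (∀ z, ∀ p ∈ S, MvPolynomial.eval (F z) p = 0) →
            (∀ z, ∀ l ∈ L, ∃ c : ℂ, F (z + l) = c • F z) →
            ∀ z w, ∃ c : ℂ, F w = c • F z),
      (∀ f : ℂ → (Fin (n + 1) → ℂ),
        Differentiable ℂ f →
        (∀ z, f z ≠ 0) →
        (∀ z, ∀ p ∈ S, MvPolynomial.eval (f z) p = 0) →
        ∀ z w, ∃ c : ℂ, f w = c • f z),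
      (∀ (a : Fin (n + 1) → ℂ) (w : Fin (n + 1) → ℕ),
        (∀ t : ℂ, t ≠ 0 → ∀ p ∈ S, MvPolynomial.eval (fun i => a i * t ^ w i) p = 0) →
        ∀ i j, a i ≠ 0 → a j ≠ 0 → w i = w j)] := by
  have hhom : ∀ p ∈ S, ∃ D : ℕ, p.IsHomogeneous D := fun p hp => (hS p hp).1
  tfae_have 1 → 3 := by
    intro h1 a w hw i j hi hj
    by_contra hij
    exact torus_of_monomial S hhom a w hw hi hj hij h1
  tfae_have 3 → 2 := by
    intro h3 f hf hf0 hfX
    by_contra hnc
    obtain ⟨w, N, hN, -, ⟨i, hi, hfi⟩, ⟨j, hj, hfj⟩, hw⟩ :=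
      one_parameter S hhom (fun p hp => (hS p hp).2) f hf hf0 hfX hnc
    obtain ⟨z0, hz0⟩ := exists_all_ne hf {i, j} (by
      intro k hk
      rw [Finset.mem_insert, Finset.mem_singleton] at hk
      rcases hk with rfl | rfl
      · exact hfi
      · exact hfj)
    have h4 := h3 (f z0) w (fun t _ p hp => by
      have := hw p hp z0 t 1
      simpa using this) i j (hz0 i (by simp)) (hz0 j (by simp))
    omega
  tfae_have 2 → 1 := by
    intro h2 g L _ _ F hF hF0 hFX _ z w
    have h3 := h2 (fun u => F (z + u • (w - z))) ?_ (fun u => hF0 _) (fun u p hp => hFX _ p hp) 0 1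
    · simpa using h3
    · exact hF.comp (by fun_prop)
  tfae_finish

end Pool.Agent.Results.MP_b9fedf_ag.FermatCovers
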