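import Pool.Agent.Lib_MP_b9fedf_sq.Fin2
import Pool.Agent.Lib_MP_b9fedf_sq.FiniteMap
import Pool.Agent.Lib_MP_b9fedf_sq.Statement2
import Pool.Agent.Lib_MP_b9fedf_ag.Hyper

set_option autoImplicit false

namespace Pool.Agent.OldManyHypersurfaces

open Pool.Agent.GGL Pool.Agent.SQ

/-- Let `D` be a set of more than `N(n, e, M)` pairwise non-proportional squarefree forms of
degree `e` on `ℙⁿ`, in any position.  There are a nonzero form `Z` and linearly independent forms
`ψ_0, …, ψ_l` of degree `e`, `l ≥ 1`, which depend only on `D`, such that for every projective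
variety `X = V(S)` and every rational map `φ` from `X` to `ℙⁿ` which is multiple over the members
of `D`, every entire curve of `X` is contained in the fixed subvariety `Z(φ) = 0` or in a fibre of
the rational map `[ψ(φ)]`.  If no point of `ℙⁿ` lies on more than `M` members of `D`, then every
entire curve of `X` is contained in `Z(φ) = 0` or in a fibre of `φ`. -/
theorem result :
    ∀ n e M : ℕ, ∃ N : ℕ, ∀ D : Finset (MvPolynomial (Fin (n + 1)) ℂ),
      (∀ P ∈ D, P.IsHomogeneous e ∧ Squarefree P) →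
      (∀ P ∈ D, ∀ P' ∈ D, ∀ c : ℂ, P' = MvPolynomial.C c * P → P' = P) →
      N < D.card →
      ∃ (l d : ℕ) (ψ : Fin (l + 1) → MvPolynomial (Fin (n + 1)) ℂ)
        (Z : MvPolynomial (Fin (n + 1)) ℂ), 1 ≤ l ∧ (∀ i, (ψ i).IsHomogeneous e) ∧
        LinearIndependent ℂ ψ ∧ Z ≠ 0 ∧ Z.IsHomogeneous d ∧
        ∀ (m e' : ℕ) (S : Set (MvPolynomial (Fin (m + 1)) ℂ))
          (φ : Fin (n + 1) → MvPolynomial (Fin (m + 1)) ℂ),
          (∀ p ∈ S, ∃ d' : ℕ, p.IsHomogeneous d') → (∀ i, (φ i).IsHomogeneous e') →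
          Multiple M S φ D →
          CurvesIn S (MvPolynomial.aeval φ Z) (fun i => MvPolynomial.aeval φ (ψ i)) ∧
          ((∀ x : Fin (n + 1) → ℂ, x ≠ 0 → ∀ D' ⊆ D,
              (∀ P ∈ D', MvPolynomial.eval x P = 0) → D'.card ≤ M) →
            CurvesIn S (MvPolynomial.aeval φ Z) φ ∧
            (GGL m (insert (MvPolynomial.aeval φ Z) S) →
              (∀ t : Fin (n + 1) → ℂ, t ≠ 0 → GGL m (Fibre S φ t)) → GGL m S)) := by
  intro n e M
  obtain ⟨N, hN⟩ := curve_all n e M
  refine ⟨N, fun D hD hD' hcard => ?_⟩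
  obtain ⟨l, ψ, D₁, d, Z, hl, hψh, hψli, hD₁, hD₁c, hD₁ψ, hZ0, hZh, hZ⟩ := hN D hD hD' hcard
  refine ⟨l, d, ψ, Z, hl, hψh, hψli, hZ0, hZh, ?_⟩
  intro m e' S φ hS hφ hM
  have hev : ∀ (x : Fin (m + 1) → ℂ) (Q : MvPolynomial (Fin (n + 1)) ℂ),
      MvPolynomial.eval x (MvPolynomial.aeval φ Q) =
        MvPolynomial.eval (fun i => MvPolynomial.eval x (φ i)) Q := by
    intro x Q
    have h1 := MvPolynomial.comp_aeval_apply (f := φ) (MvPolynomial.aeval x :
      MvPolynomial (Fin (m + 1)) ℂ →ₐ[ℂ] ℂ) Q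
    rw [← MvPolynomial.coe_aeval_eq_eval, ← MvPolynomial.coe_aeval_eq_eval]
    exact h1
  have key : ∀ f : ℂ → (Fin (m + 1) → ℂ), Differentiable ℂ f → (∀ z, f z ≠ 0) →
      (∀ z, ∀ p ∈ S, MvPolynomial.eval (f z) p = 0) →
      (∀ z, MvPolynomial.eval (fun i => MvPolynomial.eval (f z) (φ i)) Z = 0) ∨
      ∃ t : Fin (l + 1) → ℂ, t ≠ 0 ∧ ∀ z i i',
        t i * MvPolynomial.eval (fun i => MvPolynomial.eval (f z) (φ i)) (ψ i') =
        t i' * MvPolynomial.eval (fun i => MvPolynomial.eval (f z) (φ i)) (ψ i) := by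
    intro f hf hf0 hfS
    refine hZ (fun i z => MvPolynomial.eval (f z) (φ i)) (fun i => diff_eval hf (φ i)) ?_
    intro P hP P' hP' z a ha ha' A hA hAa
    have hsh : ∀ u : ℂ → ℂ, analyticOrderAt (fun ζ => u (z + ζ)) 0 = analyticOrderAt u z := by
      intro u
      have h1 := analyticOrderAt_comp_of_deriv_ne_zero (f := u) (g := fun ζ : ℂ => z + ζ)
        (z₀ := 0) (by fun_prop) (by
          rw [deriv_const_add]
          simp)
      simpa [Function.comp_def] using h1
    have hord : ∀ Q : MvPolynomial (Fin (n + 1)) ℂ,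
        analyticOrderAt (fun ζ => MvPolynomial.eval (f (z + ζ)) (MvPolynomial.aeval φ Q)) 0 =
        analyticOrderAt (fun ζ => MvPolynomial.eval
          (fun k => MvPolynomial.eval (f ζ) (φ k)) Q) z := by
      intro Q
      rw [← hsh]
      congr 1
      funext ζ
      exact hev _ Q
    refine hM (fun ζ => f (z + ζ)) ?_ ?_ ?_ P hP P' hP' a ?_ ?_ A hA ?_
    · have h1 : AnalyticAt ℂ f (z + 0) := hf.analyticAt _
      exact h1.fun_comp (f := fun ζ : ℂ => z + ζ) (by fun_prop)
    · exact hf0 _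
    · exact Filter.Eventually.of_forall fun ζ => hfS _
    · rw [hord]
      exact ha
    · rw [hord]
      exact ha'
    · intro Q hQ
      rw [hord]
      exact hAa Q hQ
  refine ⟨?_, ?_⟩
  · intro f hf hf0 hfS
    rcases key f hf hf0 hfS with h1 | ⟨t, ht0, ht⟩
    · exact Or.inl fun z => by rw [hev]; exact h1 z
    · refine Or.inr ⟨t, ht0, ?_⟩
      rintro z p (hp | ⟨i, i', rfl⟩)
      · exact hfS z p hp
      · rw [map_sub, map_mul, map_mul, MvPolynomial.eval_C, MvPolynomial.eval_C, hev, hev,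
          sub_eq_zero]
        exact ht z i i'
  intro hpos
  -- the forms `ψ` have no common zero
  have hbase : ∀ x : Fin (n + 1) → ℂ, (∀ i, MvPolynomial.eval x (ψ i) = 0) → x = 0 := by
    intro x hx
    by_contra hx0
    have h1 := hpos x hx0 D₁ hD₁ (by
      intro Q hQ
      obtain ⟨v, rfl⟩ := hD₁ψ Q hQ
      rw [map_sum]
      exact Finset.sum_eq_zero fun i _ => by rw [map_mul, hx i, mul_zero])
    omega
  have he : 1 ≤ e := by
    by_contra he0
    have he0' : e = 0 := by omega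
    subst he0'
    have h2 : ∀ i, ψ i = MvPolynomial.C (MvPolynomial.coeff 0 (ψ i)) := fun i =>
      MvPolynomial.totalDegree_eq_zero_iff_eq_C.mp (Nat.le_zero.mp (hψh i).totalDegree_le)
    obtain ⟨i₁, hi₁⟩ : ∃ i₁ : Fin (l + 1), i₁ ≠ 0 := ⟨⟨1, by omega⟩, fun h => by
      have := congrArg Fin.val h
      simp at this⟩
    set c₀ := MvPolynomial.coeff 0 (ψ 0) with hc₀
    set c₁ := MvPolynomial.coeff 0 (ψ i₁) with hc₁
    have h3 := (Fintype.linearIndependent_iff.mp hψli)
      (Pi.single 0 c₁ - Pi.single i₁ c₀) (by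
        have h4 : ∀ i, (Pi.single 0 c₁ - Pi.single i₁ c₀ : Fin (l + 1) → ℂ) i • ψ i =
            (if i = 0 then c₁ • ψ 0 else 0) - (if i = i₁ then c₀ • ψ i₁ else 0) := by
          intro i
          rw [Pi.sub_apply, Pi.single_apply, Pi.single_apply, sub_smul]
          split_ifs with h5 h6 h6
          · rw [h5]
            exact absurd (h6.symm.trans h5) hi₁
          · rw [h5, zero_smul]
          · rw [h6, zero_smul]
          · rw [zero_smul]
        rw [Finset.sum_congr rfl fun i _ => h4 i, Finset.sum_sub_distrib, Finset.sum_ite_eq',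
          Finset.sum_ite_eq', if_pos (Finset.mem_univ _), if_pos (Finset.mem_univ _), h2 0, h2 i₁,
          ← hc₀, ← hc₁, MvPolynomial.smul_eq_C_mul, MvPolynomial.smul_eq_C_mul, mul_comm,
          sub_self]) i₁
    rw [Pi.sub_apply, Pi.single_apply, if_neg hi₁, Pi.single_eq_same, zero_sub, neg_eq_zero] at h3
    apply hψli.ne_zero 0
    rw [h2 0, ← hc₀, h3, map_zero]
  have key2 : CurvesIn S (MvPolynomial.aeval φ Z) φ := by
    intro f hf hf0 hfS
    rcases key f hf hf0 hfS with h1 | ⟨t, ht0, ht⟩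
    · exact Or.inl fun z => by rw [hev]; exact h1 z
    · right
      obtain ⟨v, hv0, hv⟩ := finite_map he ψ hψh hbase (fun i z => MvPolynomial.eval (f z) (φ i))
        (fun i => diff_eval hf (φ i)) t ht0 ht
      refine ⟨v, hv0, ?_⟩
      rintro z p (hp | ⟨i, j, rfl⟩)
      · exact hfS z p hp
      · rw [map_sub, map_mul, map_mul, MvPolynomial.eval_C, MvPolynomial.eval_C, sub_eq_zero]
        exact hv z i j
  refine ⟨key2, ?_⟩
  intro hGZ hGF htor f hf hf0 hfS
  rcases key2 f hf hf0 hfS with h1 | ⟨t, ht0, ht⟩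
  · refine hGZ ?_ f hf hf0 ?_
    · intro g L hL hspan F hF hF0 hFX hFL
      exact htor g L hL hspan F hF hF0 (fun z p hp => hFX z p (Set.mem_insert_of_mem _ hp)) hFL
    · intro z p hp
      rcases Set.mem_insert_iff.mp hp with rfl | hp
      · exact h1 z
      · exact hfS z p hp
  · refine hGF t ht0 ?_ f hf hf0 ht
    intro g L hL hspan F hF hF0 hFX hFL
    exact htor g L hL hspan F hF hF0 (fun z p hp => hFX z p (Or.inl hp)) hFL

end Pool.Agent.OldManyHypersurfaces
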