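import Pool.Agent.Lib_MP_b9fedf_ag.Hyper

/-!
# Every projective variety is the exceptional set of smooth hypersurfaces

Let `X = V(S) ⊆ ℙⁿ` be an arbitrary projective variety (any zero set of homogeneous polynomials),
and embed `ℙⁿ` into `ℙ²ⁿ⁺¹` linearly. There are smooth hypersurfaces `Y` of `ℙ²ⁿ⁺¹` of arbitrarily
large degree which contain `X` and such that every non-constant entire curve of `Y` is contained
in `X`. Consequently the Green-Griffiths-Lang statement holds for `X` if and only if it holds for
`Y`, and the Green-Griffiths-Lang conjecture (frozen statement S00411) is equivalent to its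
restriction to smooth hypersurfaces of degree `≥ B(n)` in `ℙ²ⁿ⁺¹`, for any function `B`.

The equation of `Y` is `∑ y_i x_i^(D-1) + ∑_m b_m (q_m · p)^e = 0`, where `p` is a suitable
system of forms of degree `δ` with zero set `X`, `D = δ e`, the `q_m` are generic linear forms and
the `b_m` generic numbers. Proof: Cartan's second main theorem with truncated counting functions
for the minimal linear relations among the terms, a pairing argument and linear algebra over the
field of meromorphic functions.
-/

set_option autoImplicit false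

open Pool.Agent.GGL

namespace Pool.Agent.Results.MP_b9fedf_ag.SmoothHypersurfaces

/-- The Green-Griffiths-Lang statements for `X` and for a hypersurface with exceptional set `X`
are equivalent. -/
theorem GGL_iff_of_exceptional {n : ℕ} (S : Set (MvPolynomial (Fin (n + 1)) ℂ))
    (F : MvPolynomial (Fin (2 * n + 1 + 1)) ℂ) (h : Exceptional S F) :
    GGL n S ↔ GGL (2 * n + 1) {F} := by
  refine ⟨fun hS hF f hf hf0 hfF => ?_, fun hF => GGL_of_exceptional S F h hF⟩
  -- `X` receives no non-constant torus maps
  have htor : ∀ f : ℂ → (Fin (n + 1) → ℂ),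
        Differentiable ℂ f →
        (∀ z, f z ≠ 0) →
        (∀ z, ∀ p ∈ S, MvPolynomial.eval (f z) p = 0) →
        ∀ z w, ∃ c : ℂ, f w = c • f z := by
    apply hS
    intro g L hL hspan Φ hΦ hΦ0 hΦS hΦL z w
    have hemb : Differentiable ℂ (fun z => emb (Φ z)) := by
      rw [differentiable_pi]
      intro i
      by_cases hi : i.1 < n + 1
      · simp only [emb, dif_pos hi]
        exact (differentiable_pi.mp hΦ) _
      · simp only [emb, dif_neg hi]
        exact differentiable_const 0
    obtain ⟨c, hc⟩ := hF g L hL hspan (fun z => emb (Φ z)) hemb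
      (fun z hz => hΦ0 z (by
        ext i
        have := congrFun hz ⟨i.1, by omega⟩
        simpa [emb, i.2] using this))
      (fun z p hp => by
        rw [Set.mem_singleton_iff] at hp
        rw [hp]
        exact h.1 _ (hΦ0 z) (hΦS z))
      (fun z l hl => by
        obtain ⟨c, hc⟩ := hΦL z l hl
        exact ⟨c, by rw [hc, emb_smul]⟩) z w
    refine ⟨c, ?_⟩
    ext i
    have := congrFun hc ⟨i.1, by omega⟩
    simpa [emb, i.2] using this
  rcases h.2 f hf hf0 (fun z => hfF z F rfl) with h1 | h1
  · exact h1
  · choose x hx hxS using h1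
    have hxeq : ∀ z i, x z i = f z ⟨i.1, by omega⟩ := by
      intro z i
      rw [hx z]
      simp [emb, i.2]
    have hxd : Differentiable ℂ x := by
      rw [differentiable_pi]
      intro i
      have h2 : (fun z => x z i) = fun z => f z ⟨i.1, by omega⟩ := funext fun z => hxeq z i
      rw [h2]
      exact (differentiable_pi.mp hf) _
    intro z w
    obtain ⟨c, hc⟩ := htor x hxd (fun z hz => hf0 z (by rw [hx z, hz, emb_zero])) hxS z w
    exact ⟨c, by rw [hx w, hx z, hc, emb_smul]⟩

theorem result (n : ℕ) (S : Set (MvPolynomial (Fin (n + 1)) ℂ))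
    (hS : ∀ p ∈ S, ∃ d : ℕ, p.IsHomogeneous d) (B : ℕ) :
    ∃ (D : ℕ) (F : MvPolynomial (Fin (2 * n + 1 + 1)) ℂ),
      B ≤ D ∧ F.IsHomogeneous D ∧ SmoothForm F ∧ Exceptional S F ∧
        (GGL n S ↔ GGL (2 * n + 1) {F}) := by
  obtain ⟨D, F, h1, h2, h3, h4⟩ := exists_hypersurface n S hS B
  exact ⟨D, F, h1, h2, h3, h4, GGL_iff_of_exceptional S F h4⟩

/-- Consequence: the conjecture for all varieties is equivalent to its case of smooth hypersurfaces
of arbitrarily large degree. -/
theorem reduction (B : ℕ → ℕ) :
    (∀ (n D : ℕ) (F : MvPolynomial (Fin (2 * n + 1 + 1)) ℂ), B n ≤ D → F.IsHomogeneous D →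
      SmoothForm F → GGL (2 * n + 1) {F}) ↔
    ∀ (n : ℕ) (S : Set (MvPolynomial (Fin (n + 1)) ℂ)),
      (∀ p ∈ S, ∃ d : ℕ, p.IsHomogeneous d) → GGL n S := by
  refine ⟨fun h n S hS => ?_, fun h n D F _ hF _ => ?_⟩
  · obtain ⟨D, F, h1, h2, h3, h4⟩ := exists_hypersurface n S hS (B n)
    exact (GGL_iff_of_exceptional S F h4).mpr (h n D F h1 h2 h3)
  · exact h (2 * n + 1) {F} (by
      intro p hp
      rw [Set.mem_singleton_iff] at hp
      exact ⟨D, by rw [hp]; exact hF⟩)

end Pool.Agent.Results.MP_b9fedf_ag.SmoothHypersurfaces
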