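import Pool.Agent.Lib_MP_b9fedf_ag.Toric

/-!
# Entire curves in Fermat covers are contained in torus orbit closures

`X ⊆ ℙⁿ` is cut out by homogeneous polynomials, each of which has at most `N` terms whose exponent
vectors are congruent modulo some `d > N (N - 2)` (both may depend on the polynomial), for example
the Fermat cover `{[x] : [x_i^d] ∈ Y}` of an arbitrary projective variety `Y`. Every entire curve
in `X` is contained in the closure of an orbit of a subtorus of the diagonal torus, and this orbit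
closure is contained in `X`. This is the analogue of the theorem of Bloch and Ochiai.
-/

set_option autoImplicit false

open Pool.Agent.GGL

namespace Pool.Agent.Results.MP_b9fedf_ag.TorusOrbits

/-- The condition on the equations. -/
def FewTerms {σ : Type} (p : MvPolynomial σ ℂ) : Prop :=
  (∃ D : ℕ, p.IsHomogeneous D) ∧
  ∃ d : ℕ, p.support.card * (p.support.card - 2) < d ∧
    ∀ a ∈ p.support, ∀ b ∈ p.support, ∀ i, (d : ℤ) ∣ (a i : ℤ) - b i

theorem result (n : ℕ) (S : Set (MvPolynomial (Fin (n + 1)) ℂ)) (hS : ∀ p ∈ S, FewTerms p)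
    (f : ℂ → (Fin (n + 1) → ℂ)) (hf : Differentiable ℂ f) (hf0 : ∀ z, f z ≠ 0)
    (hfX : ∀ z, ∀ p ∈ S, MvPolynomial.eval (f z) p = 0) :
    ∃ Λ : AddSubgroup (Fin (n + 1) → ℤ), Saturated Λ ∧ ∃ x : Fin (n + 1) → ℂ, x ≠ 0 ∧
      (∀ t ∈ torus Λ, ∀ p ∈ S, MvPolynomial.eval (fun i => t i * x i) p = 0) ∧
      ∀ z, ∀ q : MvPolynomial (Fin (n + 1)) ℂ,
        (∀ t ∈ torus Λ, MvPolynomial.eval (fun i => t i * x i) q = 0) →
          MvPolynomial.eval (f z) q = 0 := by
  classical
  set I : Finset (Fin (n + 1)) := Finset.univ.filter (fun i => ∃ z, f z i ≠ 0) with hIdef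
  have hI : ∀ i, i ∈ I ↔ ∃ z, f z i ≠ 0 := by
    intro i; rw [hIdef, Finset.mem_filter]; simp
  have hI' : ∀ i ∈ I, ∃ z, f z i ≠ 0 := fun i hi => (hI i).mp hi
  obtain ⟨z0, hz0⟩ := (good_isConnected hf I hI').nonempty
  refine ⟨relLat f I, relLat_saturated hf I hI', f z0, hf0 z0, ?_, ?_⟩
  · intro t ht p hp
    obtain ⟨_, d, hN, hd⟩ := hS p hp
    exact torus_orbit hf I hI p d hN hd (fun z => hfX z p hp) t ht z0
  · intro z q hq
    have hdiff : Differentiable ℂ (fun z => MvPolynomial.eval (f z) q) := by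
      simp_rw [MvPolynomial.eval_eq']
      exact Differentiable.fun_sum fun a _ => (mono_diff hf a).const_mul _
    have h1 : Set.EqOn (fun z => MvPolynomial.eval (f z) q) (fun _ => 0) (good f I) := by
      intro w hw
      obtain ⟨t, ht, htw⟩ := exists_torus I hI hz0 hw
      simp only
      rw [htw]
      exact hq t ht
    have h2 := Continuous.ext_on (good_dense hf I hI') hdiff.continuous continuous_const h1
    exact congrFun h2 z

end Pool.Agent.Results.MP_b9fedf_ag.TorusOrbits
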